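import Pool.Agent.V1157.KL.LcB

/-!
# `κ(X) = ν(X)` for varieties whose fibres over a variety of log general type correspond to moving log
canonical arrangements

Let `V` be any variety of dimension `p` with the function field `K0`, `y 0, …, y n` nonzero rational
functions on `V` whose ratios define a generically finite map of `V` to projective space, and `B` any
set of prime divisors over `V`, such that the complement of `B` and of the zeros and poles of the
ratios `y i / y j` is of log general type; there is no condition on the singularities of these
divisors, and `V` itself may have any Kodaira dimension, for instance `V = ℙ^p`. There is a number `μ`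
which depends only on these data, such that `κ(X) = ν(X)` for all normal projective varieties `X` (for
instance projective manifolds) of any dimension, with a dominant rational map `X ⇢ V`, with the
following properties:

* (the base) for every prime divisor `P` of `X` which does not dominate `V`: either the orders of two
  of the functions `y i` along `P` differ by at least `μ`, or all `y i` have the same order along `P`,
  and the ramification index of `P` over `V` is at least `2` if `P` lies over a prime divisor in `B`;
* (the fibres) there is a correspondence between `X` and a relative product of projective spaces over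
  `V`: a variety `X'` with a generically finite map `X' ⇢ X` (any finite extension `K'` of the function
  field `K`, ramified anywhere) and a generically finite map over `V` of `X'` to
  `V' × P^{r_1} × ... × P^{r_c}`, `r_j ≥ 1`, `V'` finite over `V`, and in each `P^{r_j}` there are any
  hyperplanes `A j i = 0` which move with the point of `V'`, with weights `w j i` in `[0, 1]` such that
  the arrangement is log canonical: the sum of the weights of hyperplanes with a common point is at
  most the codimension of their intersection; such that over the generic point of `V` the pull backs to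
  `X'` of `K_X` and of `K + ∑ w j i (A j i = 0)` are comparable: if `Q` is a place of `K'` over a
  prime divisor `P` of `X` which dominates `V`, with ramification index `ε`, and `e j i` are the
  multiplicities of the hyperplanes at `Q`, then `ε` is at most `∑ (mx_j - ∑ w j i e j i)`, where `mx_j`
  is the greatest sum of `r_j + 1` of the `e j i` whose hyperplanes have no common point (at most `1`,
  if all `e j i` are zero); and if `Q` is a place of `K'` over a prime divisor of
  `P^{r_1} × ... × P^{r_c}` over `V`, with ramification index `ρ`, and over the place `P` of `K`, with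
  ramification index `ε`, then `ρ - ε α ≤ ∑ w j i e j i`, where `α` is the log discrepancy of `X`
  along `P`.

Precisely: `K_X` is pseudo-effective if and only if `∑ i, w j i ≥ r_j + 1` for
all `j`; then `κ = ν = p + l`, where `l` is the sum of the `r_j` with `∑ i, w j i > r_j + 1`; otherwise
`κ = ν = -∞`. In particular `κ(M) = ν(M)` for all projective manifolds `M` with nef
canonical bundle in this class (for nef `K_M` the numerical dimension of the question is the one used
here, by well known facts).

The generic fibre may for instance be a cover which is ramified over such an arrangement, or a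
quotient by a finite group of a product of such covers; the moduli of the fibres and the monodromy over
`V` may be arbitrary; `K_X` is not big in general. This is the case `Δ = 0` of
`MP_e23cd6_ag.ArrangementFibres` (a theorem on pairs), where the language of function fields and places
(`Pool.Agent.Y172`) is explained.

Proof: the sections of `m K_X` are products of the pull backs of pluricanonical forms of the base
(`Base`, `Comb`) and of norms to `K` of products of determinants of logarithmic derivatives of the
linear forms along the fibres of `X'` (`lc_low`); the upper bound is `lc_ab`.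
-/

set_option autoImplicit false

open FF Pool.Agent.W602.GT Pool.Agent.Y172 Pool.Agent.Y191 Pool.Agent.V1157.KL

namespace Pool.Agent.Results.MP_c2a5fc_ag.ArrangementFibres

section

variable {K : Type} [Field K] [Algebra ℂ K] {N : ℕ}

/-- `X` is a normal projective variety of dimension `n`, where `x` is the generic point of `X`. -/
def IsVariety (x : Fin (N + 1) → K) (n : ℕ) : Prop :=
  NormalModel x ∧ Algebra.trdeg ℂ K = n

/-- The prime divisors of `X` dominate the variety `V` with the function field `K0`, or satisfy the
condition on the multiplicities. -/
def HighOver (K0 : Type) [Field K0] [Algebra ℂ K0] [Algebra K0 K] {n : ℕ} (y : Fin (n + 1) → K0)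
    (B : Place ℂ K0 → Prop) (μ : ℕ) (x : Fin (N + 1) → K) : Prop :=
  ∀ P, IsPrimeDivisor x P → (∀ g : K0, P.ord (algebraMap K0 K g) = 0) ∨ Mult y B μ P 0

/-- There is a finite extension `K'` of `K`, and the `u ⟨j, k⟩` are the affine coordinates of a
generically finite map, over the variety with the function field `L`, of a variety with the function
field `K'` to a product of projective spaces of dimensions `r j ≥ 1`; `A j i` are the coefficients of
hyperplanes, algebraic over `L`, with weights `w j i` in `[0, 1]` such that the arrangement is log
canonical (`LcArr`). The multiplicities are bounded at the places over the prime divisors of `X`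
which are trivial on `L` (`LcHor`) and at the places over the prime divisors of the product
(`Cor`). -/
def Fibres (x : Fin (N + 1) → K) (n : ℕ) (L : IntermediateField ℂ K) {c : ℕ}
    (r s : Fin c → ℕ) (w : ∀ j, Fin (s j) → ℚ) : Prop :=
  (∀ j, 1 ≤ r j ∧ ∀ i, 0 ≤ w j i ∧ w j i ≤ 1) ∧
  ∃ (K' : Type) (_ : Field K') (_ : Algebra ℂ K') (_ : Algebra K K') (_ : IsScalarTower ℂ K K')
    (_ : FiniteDimensional K K') (A : ∀ j, Fin (s j) → Fin (r j + 1) → K')
    (u : (Σ j, Fin (r j)) → K'),
    LcArr (upF K' L) A w ∧ IsTranscendenceBasis (upF K' L) u ∧
    LcHor L A u w {P | IsPrimeDivisor x P} (fun _ => 0) ∧ Cor x n 0 (upF K' L) A u w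

/-- the sum of the dimensions `r j` for which the sum of the weights is greater than `r j + 1` -/
def big {c : ℕ} (r s : Fin c → ℕ) (w : ∀ j, Fin (s j) → ℚ) : ℕ :=
  ∑ j, if (r j + 1 : ℚ) < ∑ i, w j i then r j else 0

/-- If the sums of the weights are at least `r j + 1` then the Kodaira dimension of `X` and the
numerical dimension of `K_X` (with respect to any effective integral divisor `A`) are `p + big`;
otherwise both are `-∞`. -/
def Abundance (x : Fin (N + 1) → K) (n : ℕ) (p : ℕ) {c : ℕ}
    (r s : Fin c → ℕ) (w : ∀ j, Fin (s j) → ℚ) : Prop :=
  ((∀ j, (r j + 1 : ℚ) ≤ ∑ i, w j i) → kodairaDim x n 0 = ((p + big r s w : ℕ) : WithBot ℕ) ∧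
    ∀ A, Effective x A → Integral x A → numericalDim x n 0 A = ((p + big r s w : ℕ) : EReal)) ∧
  ((∃ j, ∑ i, w j i < (r j + 1 : ℚ)) → kodairaDim x n 0 = ⊥ ∧
    ∀ A, Effective x A → numericalDim x n 0 A = ⊥)

end

theorem exists_idx {c : ℕ} (r q : Fin c → ℕ) (w : ∀ j, Fin (q j) → ℚ) :
    ∃ κ : Fin (big r q w) → Σ j, Fin (r j), Function.Injective κ ∧
      ∀ i, (r (κ i).1 + 1 : ℚ) < ∑ i', w (κ i).1 i' := by
  classical
  have h1 : Fintype.card {x : Σ j, Fin (r j) // (r x.1 + 1 : ℚ) < ∑ i, w x.1 i} = big r q w := by
    rw [Fintype.card_subtype, Finset.card_filter, Fintype.sum_sigma]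
    refine Finset.sum_congr rfl fun j _ => ?_
    change ∑ _k : Fin (r j), (if (r j + 1 : ℚ) < ∑ i, w j i then 1 else 0) = _
    rw [Finset.sum_const, Finset.card_univ, Fintype.card_fin, smul_eq_mul, mul_ite, mul_one,
      mul_zero]
  let φ := Fintype.equivFinOfCardEq h1
  exact ⟨fun i => (φ.symm i : Σ j, Fin (r j)), fun a b hab => φ.symm.injective (Subtype.ext hab),
    fun i => (φ.symm i).2⟩

/-- **Abundance.** Let `K0` be the function field of a variety `V` of dimension `p`, let `y i` be
nonzero elements of `K0` such that `K0` is algebraic over the field generated by their ratios, and let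
`B` be a set of places, such that the complement in `V` of the prime divisors in `B` and of the zeros
and poles of the ratios is of log general type. Then there is a number `μ` such that for all normal
projective varieties `X` of dimension `p + ∑ j, r j`, with a dominant rational map `X ⇢ V`, such that
the prime divisors of `X` dominate `V` or satisfy the condition on the multiplicities (`HighOver`), and
fibres as in `Fibres`: `κ(X) = ν(X)` is `p` plus the sum of the `r j` with
`r j + 1 < ∑ i, w j i`, if `r j + 1 ≤ ∑ i, w j i` for all `j`, and `-∞` otherwise. -/
theorem result (K0 : Type) [Field K0] [Algebra ℂ K0] [Algebra.EssFiniteType ℂ K0] (n p : ℕ)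
    (y : Fin (n + 1) → K0) (B : Place ℂ K0 → Prop) (hy : ∀ i, y i ≠ 0)
    (halg : ∀ z : K0, IsAlgebraic (IntermediateField.adjoin ℂ (Set.range fun i => y i / y 0)) z)
    (hgt : LogGeneralType ℂ K0 p (fun P => (∃ i, P.ord (y i) ≠ P.ord (y 0)) ∨ B P)) :
    ∃ μ : ℕ, ∀ (K : Type) [Field K] [Algebra ℂ K] [Algebra K0 K] [IsScalarTower ℂ K0 K]
      (N c : ℕ) (r s : Fin c → ℕ) (x : Fin (N + 1) → K),
      IsVariety x (p + ∑ j, r j) → HighOver K0 y B μ x →
      ∀ w : ∀ j, Fin (s j) → ℚ, Fibres x (p + ∑ j, r j) (img K0 K) r s w →
      Abundance x (p + ∑ j, r j) p r s w := by
  obtain ⟨μ, hμ⟩ := lc_lgt K0 n p y B hy halg hgt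
  refine ⟨μ, ?_⟩
  rintro K _ _ _ _ N c r s x ⟨hx, hn⟩ hH w ⟨hw, K', _, _, _, _, _, A, u, hA, hu, h1, hC⟩
  have e0 : Effective x 0 := ⟨fun P _ => le_rfl, by simp⟩
  obtain ⟨h2, h3⟩ := hμ K N c r s x 0 hx hn e0 (fun P hP => by
    rcases hH P hP with h | h
    · exact Or.inl h
    · right
      simpa using h) w hw K' A u hA hu (by simpa using h1) hC
  refine ⟨fun h => h3 (big r s w) h ?_ (exists_idx r s w), h2⟩
  rw [big, ← Finset.sum_add_distrib]
  refine Finset.sum_congr rfl fun j _ => ?_
  rcases lt_or_eq_of_le (h j) with h4 | h4
  · rw [if_pos h4, if_neg h4.ne', add_zero]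
  · rw [if_neg (not_lt.2 h4.symm.le), if_pos h4.symm, zero_add]

end Pool.Agent.Results.MP_c2a5fc_ag.ArrangementFibres
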