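import Pool.Agent.Y174.Main2
import Pool.Agent.Y174.B7
import Pool.Agent.V11168.Rel.PairDim

/-!
# Abundance for manifolds with multivalued 1-forms

Let `X` be a projective manifold of dimension `n`, with function field `K`. A multivalued 1-form on `X`
is a `K`-linear map `ω` from the rational vector fields to the algebraic closure of `K`. It is
holomorphic (`MultiReg`) if along each prime divisor `v` over `X` its values on the vector fields which
are regular along `v` are integral over the local ring of `v`. For example, the factors of a symmetric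
differential on `X` with leading coefficient `1` in a suitable sense, or the holomorphic 1-forms which
an equivariant harmonic map to a Euclidean building defines on `X`.

It is assumed that no rational vector field on `X` is killed by all the multivalued holomorphic 1-forms
`ω i`. (In the algebraic closure of `K` there can be such vector fields: a single `ω`, with `n`
conjugates which are linearly independent, is enough.)
-/

set_option autoImplicit false

open FF IntermediateField Pool.Agent.W619.PQ Pool.Agent.W619.TW Pool.Agent.W619.Y Pool.Agent.Y174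
  Pool.Agent.V11168.Rel

namespace Pool.Agent.Results.MP_c2a5fc_ag.MultivaluedOneForms

/-- `κ (X) = ν (X) = a` for the projective manifolds of dimension `n` over `k` with the function field
`K`: for some `m ≥ 1` there are `h + 1` regular `m`-fold pluricanonical forms whose `h` ratios are
algebraically independent (`KodTr`) exactly for `h ≤ a`; and for every divisor `A` there is `C` with
`h⁰ (m K_X + A) ≤ C m ^ h` for all `m ≥ 1` (`NumLe`) exactly for `h ≥ a`. -/
def HasAbundance (k K : Type) [Field k] [Field K] [Algebra k K] (n a : ℕ) : Prop :=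
  ∀ h, (KodTr k K n h ↔ h ≤ a) ∧ (NumLe k K n (fun _ => False) h ↔ a ≤ h)

/-- **Theorem.** Let `X` be a projective manifold of dimension `n` with finitely many multivalued
holomorphic 1-forms `ω i`, such that no rational vector field is killed by all of them. Then
`κ (X) ≥ 0`, and `X` has a finite Galois cover `Z` of maximal Albanese dimension (`MaxAlb`: there are
`n` linearly independent holomorphic 1-forms on the projective manifolds birational to `Z`), whose
function field is generated by the values of the `ω i` and their conjugates, with `κ (X) = κ (Z)` and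
`ν (X) ≤ ν (Z)`. So if `κ (Z) = ν (Z)`, then `κ (X) = ν (X)`. -/
theorem result {K : Type} [Field K] [Algebra ℂ K] [Algebra.EssFiniteType ℂ K] {n s : ℕ}
    (hn : Algebra.trdeg ℂ K = n) (ω : Fin s → Derivation ℂ K K →ₗ[K] AlgebraicClosure K)
    (hreg : ∀ i, MultiReg n (ω i)) (hker : ∀ D, (∀ i, ω i D = 0) → D = 0) :
    KodTr ℂ K n 0 ∧
    ∃ L : IntermediateField K (AlgebraicClosure K), FiniteDimensional K L ∧ IsGalois K L ∧
      IntermediateField.adjoin K {z | ∃ (g : AlgebraicClosure K ≃ₐ[K] AlgebraicClosure K)
        (i : Fin s) (D : Derivation ℂ K K), g (ω i D) = z} = L ∧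
      MaxAlb ℂ L n ∧ (∀ h, KodTr ℂ K n h ↔ KodTr ℂ L n h) ∧
      (∀ h, NumLe ℂ L n (fun _ => False) h → NumLe ℂ K n (fun _ => False) h) ∧
      ∀ a, HasAbundance ℂ L n a → HasAbundance ℂ K n a := by
  obtain ⟨L, h1, h2, h3, h4, h5, h6, h7⟩ := main2 (Ω := AlgebraicClosure K)
    ‹Algebra.EssFiniteType ℂ K› hn ω hreg hker
  refine ⟨h5, L, h1, h2, h3, h4, h6, h7, fun a ha h => ?_⟩
  have h8 : PairKod ℂ K n (fun _ => 0) a := pairKod_zero.2 ((h6 a).2 ((ha a).1.2 le_rfl))
  have h9 : PairNum ℂ K n (fun _ => 0) a := pairNum_zero.2 (h7 a ((ha a).2.2 le_rfl))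
  rw [← pairKod_zero, ← pairNum_zero]
  exact ⟨⟨fun h10 => pair_le h10 h9, fun h10 => pairKod_mono h10 h8⟩,
    ⟨fun h10 => pair_le h8 h10, fun h10 => pairNum_mono h10 h9⟩⟩

end Pool.Agent.Results.MP_c2a5fc_ag.MultivaluedOneForms
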