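import Pool.Agent.V11168.Pair.Point

/-!
# Abundance for quotients of fibre spaces over orbifolds of general type

Let `Z → B` be an algebraic fibre space of projective varieties, `dim B = d`, `dim Z = d + (r + 1)`,
with the function fields `M ⊂ L`, `Δ_B` a divisor on `B` with multiplicities at most `1` (it takes
the multiple fibres into account), `V` a space of closed holomorphic 1-forms on `Z` (regular along all
prime divisors over `Z`), `r + 1` of which are linearly independent on the general fibre, and `G` a
finite group of birational automorphisms of `Z` which preserves `V`; it need not preserve the map to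
`B`. Let `X` be a projective manifold birational to `Z / G` (for `G = 1`: to `Z`); its function field is
the field of invariants `fixedField G`.

`W = constFields (fibreForms M V)` is the space of the vector fields on the generic fibre on which all
forms in `V` are constant; they are assumed to be regular on some projective model of the generic fibre
(`IsRegularOnModel`).

* `BaseBound ... (fun _ => 0) δB`: if the prime divisor `w` over `Z` is not ramified over `X`, and lies
  over the prime divisor `u` over `B` with multiplicity `c`, then `1 ≤ c (1 - δB u)`, that is,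
  `δB u ≤ 1 - 1 / c`. (So for `G = 1` we can take the orbifold base of Campana on a suitable model of
  `Z → B`.)
* `ReidTaiPair ... (fun _ => 0) δB`: if `w` has ramification index `e ≥ 2` over `X`, `g` in `G`, of order
  `e`, fixes `w` pointwise, and `θ 1, ..., θ (r + 1)` in `V`, independent on the general fibre, are
  eigenvectors of `g` with the eigenvalues `ζ ^ a i`, `0 ≤ a i < e`, `ζ` a primitive `e`-th root of
  unity, then `c (1 - δB u) + a 1 + ... + a (r + 1) ≥ e`, where `c = 0` if `w` dominates `B`, and `w`
  lies over `u` with multiplicity `c` otherwise. For `G = 1` there is no condition.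

Nothing is assumed on `K_B + Δ_B` in the two inequalities; for the equality `κ (X) = ν (X)` it is
assumed to be of general type. `B` itself can be a projective space or an abelian variety.
-/

set_option autoImplicit false

open FF IntermediateField Pool.Agent.W619.PQ Pool.Agent.W619.TW Pool.Agent.W619.Y
  Pool.Agent.Y173.QA Pool.Agent.Y173.QM Pool.Agent.Y174 Pool.Agent.V11168.Rel
  Pool.Agent.V11168.Pair

namespace Pool.Agent.Results.MP_c2a5fc_ag.OrbifoldBaseFibrations

/-- `κ ≥ h` for the projective manifolds of dimension `n` over `k` with the function field `K`: for some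
`m ≥ 1` there are `h + 1` regular `m`-fold pluricanonical forms whose `h` ratios are algebraically
independent. -/
def KodairaGe (k K : Type) [Field k] [Field K] [Algebra k K] (n h : ℕ) : Prop := KodTr k K n h

/-- `ν ≤ h` for the canonical bundle of the projective manifolds of dimension `n` over `k` with the
function field `K`: for every divisor `A` there is `C` with `h⁰ (m K + A) ≤ C m ^ h` for all
`m ≥ 1`. -/
def NumericalLe (k K : Type) [Field k] [Field K] [Algebra k K] (n h : ℕ) : Prop :=
  NumLe k K n (fun _ => False) h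

/-- **Theorem.** Let `Z → B`, `M ⊂ L`, `Δ_B`, `V`, `G` and `X` be as above, let `s` be the dimension of
the space `W` of the constant vector fields of the generic fibre, and `a = (r + 1) - s`. Then
`κ (X) ≥ κ (K_B + Δ_B) + a` and `ν (X) ≤ dim B + a`. If `K_B + Δ_B` is of general type, then
`κ (X) = ν (X) = dim B + a`. (`PairKod ℂ M d δB h` means `κ (K_B + Δ_B) ≥ h`.) -/
theorem result {L : Type} [Field L] [Algebra ℂ L] [Algebra.EssFiniteType ℂ L]
    -- the base
    (M : IntermediateField ℂ L) [Algebra.EssFiniteType ℂ M]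
    (hMcl : ∀ x : L, IsAlgebraic M x → x ∈ M) {d r : ℕ}
    (hM : Algebra.trdeg ℂ M = d) (hn : Algebra.trdeg ℂ L = (d + (r + 1) : ℕ))
    {δB : Place ℂ M → ℝ} (hB : ∀ u, δB u ≤ 1)
    -- the group and the forms
    (G : Subgroup (L ≃ₐ[ℂ] L)) [Finite G]
    (V : Submodule ℂ (Derivation ℂ L L →ₗ[L] L)) (hreg : ∀ θ ∈ V, IsRegForm (d + (r + 1)) θ)
    (hcl : ∀ θ ∈ V, IsClosedForm θ)
    (hstab : ∀ g ∈ G, ∀ θ ∈ V, ∃ θ' ∈ V, IsImage g θ θ')
    (hind : ∃ θ : Fin (r + 1) → Derivation ℂ L L →ₗ[L] L, (∀ i, θ i ∈ V) ∧
      IndepOver (m := d) M θ)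
    -- the conditions on the divisors
    (hBX : BaseBound (d + (r + 1)) G M (fun _ => False) (fun _ => 0) δB)
    (hRT : ReidTaiPair d (r + 1) G M V (fun _ => False) (fun _ => 0) δB)
    (hmod : IsRegularOnModel (constFields (fibreForms M V))) :
    ∃ a : ℕ, a + Module.finrank M (constFields (fibreForms M V)) = r + 1 ∧
      (∀ h, PairKod ℂ M d δB h → KodairaGe ℂ (fixedField G) (d + (r + 1)) (h + a)) ∧
      NumericalLe ℂ (fixedField G) (d + (r + 1)) (d + a) ∧
      (PairKod ℂ M d δB d → ∀ h,
        (KodairaGe ℂ (fixedField G) (d + (r + 1)) h ↔ h ≤ d + a) ∧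
        (NumericalLe ℂ (fixedField G) (d + (r + 1)) h ↔ d + a ≤ h)) := by
  obtain ⟨θ, hθ, hθi⟩ := hind
  have hlog : ∀ θ ∈ V, IsLogForm (d + (r + 1)) (BdOn fun _ : Place ℂ (fixedField G) => False) θ :=
    fun θ hθ w hw D hD => hreg θ hθ w hw D (hD.1 fun ⟨_, _, _, h⟩ => h)
  have hT : ∀ v : Place ℂ (fixedField G), IsDivisorial v (d + (r + 1)) →
      ∃ g ∈ ({1} : Finset (fixedField G)), g ≠ 0 ∧ (0 : ℝ) ≤ (v.ord g : ℝ) := fun v _ =>
    ⟨1, Finset.mem_singleton_self 1, one_ne_zero, by rw [v.ord_one]; simp⟩
  obtain ⟨a, ha, h1, h2⟩ := pair_main (δ := fun _ : Place ℂ (fixedField G) => (0 : ℝ)) hMcl hM hn G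
    (fun _ => le_rfl) (Bd := fun _ => False) (fun _ h => h.elim) hT hlog hcl hstab hB hBX hRT hθ hθi
  have h3 := h2 hmod (fun v w e _ he _ => Or.inl (by
    have h4 : (1 : ℝ) ≤ e := by exact_mod_cast he.1
    have h5 : (1 : ℝ) / e ≤ 1 := by
      rw [div_le_one (by linarith)]
      exact h4
    linarith))
  unfold KodairaGe NumericalLe
  refine ⟨a, ha, fun h hh => ?_, ?_, fun hgt h => ?_⟩
  · rw [← pairKod_zero]
    exact h1 h hh
  · rw [← pairNum_zero]
    exact h3
  · have h4 := h1 d hgt
    rw [← pairKod_zero, ← pairNum_zero]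
    exact ⟨⟨fun h5 => pair_le h5 h3, fun h5 => pairKod_mono h5 h4⟩,
      ⟨fun h5 => pair_le h4 h5, fun h5 => pairNum_mono h5 h3⟩⟩

end Pool.Agent.Results.MP_c2a5fc_ag.OrbifoldBaseFibrations
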