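import Pool.Agent.V11168.Abund.Main
import Pool.Agent.V11168.Abund.Dim

/-!
# Abundance for quotients of varieties with closed holomorphic 1-forms, under a Reid-Tai condition

Let `Z` be a projective variety of dimension `n ≥ 1` with the function field `L`, `V` a space of
holomorphic 1-forms on `Z` (regular along all prime divisors over `Z`), `n` of which have a nonzero
exterior product (so that `Z` has maximal Albanese dimension), and `G` a finite group of birational
automorphisms of `Z` which preserves `V`. Let `X` be a projective manifold birational to `Z / G`; its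
function field is the field of invariants `fixedField G`.

For example `Z` is (a resolution of) a closed subvariety of an abelian variety `A`, `G` a finite group
of automorphisms of `A` which preserve `Z`, and `V` the space of the restrictions of the invariant
1-forms of `A`. Then `constFields V` is the space of the invariant vector fields of `A` which are
tangent to `Z`, which are regular on `Z` (`IsRegularOnModel`), and its dimension is the dimension of
the stabilizer of `Z` in `A`.

`ReidTai n G V s`: if `g ≠ 1` in `G`, of order `d`, fixes pointwise a prime divisor over `Z`, and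
`θ 1, ..., θ n` in `V` with nonzero exterior product are eigenvectors of `g` with the eigenvalues
`ζ ^ a 1, ..., ζ ^ a n`, `0 ≤ a i < d`, `ζ` a primitive `d`-th root of unity, then
`d + s ≤ a 1 + ... + a n`. There is no other condition on the fixed points of `G`; for example `s = 0`
is satisfied by `G = {1, -1}` on all symmetric subvarieties of dimension at least two.
-/

set_option autoImplicit false

open IntermediateField Pool.Agent.W619.PQ Pool.Agent.W619.TW Pool.Agent.W619.Y Pool.Agent.Y173.QA

namespace Pool.Agent.Results.MP_c2a5fc_ag.ReidTaiQuotients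

/-- The Kodaira dimension of the projective manifolds of dimension `n` with the function field `K` is
`a` (and not `-∞`): for some `m ≥ 1` there are `h + 1` holomorphic `m`-fold pluricanonical forms whose
`h` ratios are algebraically independent (`KodTr`) exactly for `h ≤ a`. -/
def HasKodairaDim (K : Type) [Field K] [Algebra ℂ K] (n a : ℕ) : Prop :=
  ∀ h, KodTr ℂ K n h ↔ h ≤ a

/-- The numerical dimension of the canonical bundle of the projective manifolds of dimension `n` with
the function field `K` is `a`: for every divisor `A` there is `C` with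
`h⁰ (m K + A) ≤ C m ^ h` for all `m ≥ 1` (`NumLe`), exactly for `h ≥ a`. -/
def HasNumericalDim (K : Type) [Field K] [Algebra ℂ K] (n a : ℕ) : Prop :=
  ∀ h, NumLe ℂ K n (fun _ => False) h ↔ a ≤ h

/-- **Theorem.** Let `Z`, `L`, `V`, `G` and `X` be as above (`hgen`: `n` forms in `V` have a nonzero
exterior product).
(1) Let the forms in `V` be closed, let the vector fields in `constFields V` (on which all forms in
`V` are constant) be regular on a projective model of `Z`, and let `ReidTai n G V 0` hold. Then
`κ (X) = ν (X) = n - dim (constFields V)`, in particular abundance holds for `X`, and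
`κ (Z) = ν (Z)` is the same number.
(2) If `ReidTai n G V 1` holds then `κ (X) = κ (Z)`, and abundance for `Z` implies abundance
for `X`, with the same value `κ (X) = ν (X) = κ (Z) = ν (Z)`. -/
theorem result {L : Type} [Field L] [Algebra ℂ L] [Algebra.EssFiniteType ℂ L] {n : ℕ} (hn1 : 1 ≤ n)
    (hn : Algebra.trdeg ℂ L = n) (G : Subgroup (L ≃ₐ[ℂ] L)) [Finite G]
    (V : Submodule ℂ (Derivation ℂ L L →ₗ[L] L)) (hreg : ∀ θ ∈ V, IsRegForm n θ)
    (hstab : ∀ g ∈ G, ∀ θ ∈ V, ∃ θ' ∈ V, IsImage g θ θ')
    (hgen : ∃ (θ : Fin n → Derivation ℂ L L →ₗ[L] L) (D : Fin n → Derivation ℂ L L),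
      (∀ i, θ i ∈ V) ∧ (Matrix.of fun i j => θ i (D j)).det ≠ 0) :
    ((∀ θ ∈ V, IsClosedForm θ) → IsRegularOnModel (constFields V) → ReidTai n G V 0 →
      ∃ a : ℕ, a + Module.finrank ℂ (constFields V) = n ∧
        HasKodairaDim (fixedField G) n a ∧ HasNumericalDim (fixedField G) n a ∧
        HasKodairaDim L n a ∧ HasNumericalDim L n a) ∧
    (ReidTai n G V 1 →
      (∀ h, KodTr ℂ (fixedField G) n h ↔ KodTr ℂ L n h) ∧
      ∀ a, HasKodairaDim L n a → HasNumericalDim L n a →
        HasKodairaDim (fixedField G) n a ∧ HasNumericalDim (fixedField G) n a) := by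
  obtain ⟨θ, D0, hθ, hD0⟩ := hgen
  have hnG : Algebra.trdeg ℂ (fixedField G) = n := trdeg_fixed G hn
  have hbuild : ∀ (K : Type) [Field K] [Algebra ℂ K], Algebra.trdeg ℂ K = n → ∀ a,
      KodTr ℂ K n a → NumLe ℂ K n (fun _ => False) a →
      HasKodairaDim K n a ∧ HasNumericalDim K n a := by
    intro K _ _ hK a h1 h2
    refine ⟨fun h => ⟨fun h3 => Pool.Agent.V11168.Abund.le_of_kod_num hK h3 h2,
      fun h3 => Pool.Agent.V11168.Abund.kodTr_mono h3 h1⟩,
      fun h => ⟨fun h3 => Pool.Agent.V11168.Abund.le_of_kod_num hK h1 h3,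
      fun h3 => Pool.Agent.V11168.Abund.numLe_mono h3 h2⟩⟩
  obtain ⟨hA, hB⟩ := Pool.Agent.V11168.Abund.main hn1 hn G V hreg hstab hθ hD0
  refine ⟨fun hcl hmod hRT => ?_, fun hRT => ?_⟩
  · obtain ⟨a, ha, h1, h2⟩ := hA hcl
    obtain ⟨h3, h4⟩ := h2 hmod
    obtain ⟨h5, h6⟩ := hbuild _ hnG a (h1 hRT) h4
    obtain ⟨h7, h8⟩ := hbuild L hn a (kod_up G hn (h1 hRT)) h3
    exact ⟨a, ha, h5, h6, h7, h8⟩
  · obtain ⟨h1, h2⟩ := hB hRT
    refine ⟨h1, fun a h3 h4 => ?_⟩
    exact hbuild _ hnG a ((h1 a).2 ((h3 a).2 le_rfl)) (h2 a ((h4 a).2 le_rfl))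

end Pool.Agent.Results.MP_c2a5fc_ag.ReidTaiQuotients
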